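import Pool.Agent.Lead.BR.Defs2

/-!
# Statements of the second part of the project BR
-/

set_option autoImplicit false

namespace Pool.Agent.Lead.BR

open TopologicalSpace Metric Filter Topology

/-- TLIM: the type is closed. The matrices are bounded (`N (M p)` is bounded for `|p| ≤ 1`), so a
subsequence converges. -/
def S_TLIM : Prop :=
  ∀ (E : Type) [NormedAddCommGroup E] [NormedSpace ℝ E] (N : ℝ → ℝ → ℝ), IsNorm2 N →
    ∀ u v : E, (∀ ε : ℝ, 0 < ε → ∃ u' v' : E, ‖u' - u‖ < ε ∧ ‖v' - v‖ < ε ∧ HasType N u' v') →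
      HasType N u v

/-- TMEA: a nonmeagre closed set has interior points (closed by TLIM). -/
def S_TMEA : Prop :=
  ∀ (E : Type) [NormedAddCommGroup E] [NormedSpace ℝ E] (N : ℝ → ℝ → ℝ), IsNorm2 N →
    (∀ x : E, ¬ IsMeagre {y : Orth x | HasType N x (y : E)} →
      ∃ (y0 : E) (r : ℝ), y0 ∈ Orth x ∧ 0 < r ∧ ∀ y ∈ Orth x, ‖y - y0‖ < r → HasType N x y) ∧
    (¬ IsMeagre {p : Pairs E | HasType N p.1.1 p.1.2} →
      ∃ (p0 : E × E) (r : ℝ), p0 ∈ Pairs E ∧ 0 < r ∧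
        ∀ p ∈ Pairs E, ‖p.1 - p0.1‖ < r → ‖p.2 - p0.2‖ < r → HasType N p.1 p.2)

/-- TLOC: as S_LOC, for types: `near_open`, and TLIM for the limit. -/
def S_TLOC : Prop :=
  ∀ (E : Type) [NormedAddCommGroup E] [NormedSpace ℝ E] [CompleteSpace E] [SeparableSpace E]
    (D : E → StrongDual ℝ E), Tr E → Sm E → NF D →
    ∀ (N : ℝ → ℝ → ℝ) (x y0 : E) (r : ℝ), IsNorm2 N → ‖x‖ = 1 → ‖y0‖ = 1 → D x y0 = 0 → 0 < r →
      (∀ y : E, ‖y‖ = 1 → D x y = 0 → ‖y - y0‖ < r → HasType N x y) →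
      ∃ r' : ℝ, 0 < r' ∧ ∀ x' y' : E, ‖x'‖ = 1 → ‖y'‖ = 1 → D x' y' = 0 → ‖x' - x‖ < r' →
        ‖y' - y0‖ < r' → HasType N x' y'

/-- TEXT: from orthogonal unit pairs to all pairs near `(x, y0)`: for `(u, v)` near `(x, y0)` put
`x' = u / ‖u‖`, `w = v - D x' v x'`, `y' = w / ‖w‖` (near `(x, y0)` by CON) and compose the
matrices. -/
def S_TEXT : Prop :=
  ∀ (E : Type) [NormedAddCommGroup E] [NormedSpace ℝ E] (D : E → StrongDual ℝ E), Sm E → NF D →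
    ∀ (N : ℝ → ℝ → ℝ) (x y0 : E) (r : ℝ), ‖x‖ = 1 → ‖y0‖ = 1 → D x y0 = 0 → 0 < r →
      (∀ x' y' : E, ‖x'‖ = 1 → ‖y'‖ = 1 → D x' y' = 0 → ‖x' - x‖ < r → ‖y' - y0‖ < r →
        HasType N x' y') →
      ∃ r' : ℝ, 0 < r' ∧ LocType N x y0 r'

/-- GRD: the norm of a plane is continuously differentiable off the origin:
`D p w ≤ ‖p + w‖ - ‖p‖ ≤ D (p + w) w`, and CON for `u`, `v`. -/
def S_GRD : Prop :=
  ∀ (E : Type) [NormedAddCommGroup E] [NormedSpace ℝ E] (D : E → StrongDual ℝ E), Sm E → NF D →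
    ∀ u v : E, Ind u v →
      Grad (Nrm u v) (fun a b => D (a • u + b • v) u) (fun a b => D (a • u + b • v) v)

/-- RIG: an infinitesimal isometry `A` (`dN(p)[A p] = 0` for `p ≠ 0`) of a norm of the plane is `0`
or the norm is Euclidean. A real eigenvalue `l` of `A` is `0` (`dN(p)[p] = N p > 0`); if `A` has
real eigenvalues, `A ^ 2 = 0` and `N (p + t A p)` is constant in `t`, so `A = 0`. If
`A = m + n J`, `J ^ 2 = -1`, `n ≠ 0`, then `N (e^(m t) (cos (n t) p + sin (n t) J p))` is constant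
in `t`; `n t = π` gives `m = 0`, and then `N` is constant on the ellipse
`cos t e + sin t J e`, `e = (1, 0)`, so `N` is Euclidean. -/
def S_RIG : Prop :=
  ∀ N g1 g2 : ℝ → ℝ → ℝ, IsNorm2 N → Grad N g1 g2 → ∀ a11 a12 a21 a22 : ℝ,
    (∀ a b : ℝ, (a ≠ 0 ∨ b ≠ 0) →
      g1 a b * (a11 * a + a12 * b) + g2 a b * (a21 * a + a22 * b) = 0) →
    (a11 = 0 ∧ a12 = 0 ∧ a21 = 0 ∧ a22 = 0) ∨ Quad N

/-- CUB: let `dN(p)[A p] = p1 k(p)` and `dN(p)[B p] = p2 k(p)` for all `p ≠ 0`, `N` not Euclidean.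
Then `B e1 = 0`. The quadratic field `Q p = - p2 A p + p1 B p` has `dN(p)[Q p] = 0`. The cubic form
`det (p, Q p)` is odd, so it has a zero `p0 ≠ 0`; there `Q p0 = m p0`, and `dN(p0)[p0] = N p0 > 0`
gives `Q p0 = 0`. So `Q p = det (p0, p) L p` with a matrix `L`, and `dN(p)[L p] = 0` for all
`p ≠ 0` (continuity of the gradient), so `L = 0` by RIG, `Q = 0`, and `Q e1 = B e1`. -/
def S_CUB : Prop :=
  ∀ N g1 g2 k : ℝ → ℝ → ℝ, IsNorm2 N → Grad N g1 g2 → ¬ Quad N →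
    ∀ a11 a12 a21 a22 b11 b12 b21 b22 : ℝ,
    (∀ a b : ℝ, (a ≠ 0 ∨ b ≠ 0) →
      g1 a b * (a11 * a + a12 * b) + g2 a b * (a21 * a + a22 * b) = a * k a b) →
    (∀ a b : ℝ, (a ≠ 0 ∨ b ≠ 0) →
      g1 a b * (b11 * a + b12 * b) + g2 a b * (b21 * a + b22 * b) = b * k a b) →
    b11 = 0 ∧ b21 = 0

/-- EXP: the first variation. If `N_n = N ∘ M_n`, `M_n → 1`, where `N_n` is the norm of the plane of
`u + s_n l1 e`, `v + s_n l2 e`, `s_n → 0`, then a subsequence of `(M_n - 1) / s_n` converges to a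
matrix `A` with `dN(p)[A p] = (l1 p1 + l2 p2) D p e`. For fixed `p`, with `R_n = M_n - 1`:
`N (p + R_n p) - N p = dN(p)[R_n p] + o(|R_n|)` (GRD) and
`N_n p - N p = s_n (l1 p1 + l2 p2) D p e + o(s_n)` (`D p w ≤ ‖p + w‖ - ‖p‖ ≤ D (p + w) w`, CON). If
`|R_n| / |s_n|` were unbounded, a limit `A` of `R_n / |R_n|` along a subsequence would satisfy
`dN(p)[A p] = 0`, `|A| = 1`, against RIG. -/
def S_EXP : Prop :=
  ∀ (E : Type) [NormedAddCommGroup E] [NormedSpace ℝ E] (D : E → StrongDual ℝ E), Sm E → NF D →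
    ∀ (u v e : E) (l1 l2 : ℝ), Ind u v → ¬ Quad (Nrm u v) →
    ∀ s p q r t : ℕ → ℝ, (∀ n, s n ≠ 0) → Tendsto s atTop (𝓝 0) → Tendsto p atTop (𝓝 1) →
      Tendsto q atTop (𝓝 0) → Tendsto r atTop (𝓝 0) → Tendsto t atTop (𝓝 1) →
      (∀ n, Via (Nrm u v) (Nrm (u + (s n * l1) • e) (v + (s n * l2) • e)) (p n) (q n) (r n) (t n)) →
      ∃ (φ : ℕ → ℕ) (a11 a12 a21 a22 : ℝ), StrictMono φ ∧
        Tendsto (fun n => (p (φ n) - 1) / s (φ n)) atTop (𝓝 a11) ∧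
        Tendsto (fun n => q (φ n) / s (φ n)) atTop (𝓝 a12) ∧
        Tendsto (fun n => r (φ n) / s (φ n)) atTop (𝓝 a21) ∧
        Tendsto (fun n => (t (φ n) - 1) / s (φ n)) atTop (𝓝 a22) ∧
        ∀ a b : ℝ, (a ≠ 0 ∨ b ≠ 0) →
          D (a • u + b • v) u * (a11 * a + a12 * b) + D (a • u + b • v) v * (a21 * a + a22 * b) =
            (l1 * a + l2 * b) * D (a • u + b • v) e

/-- NID: coordinates near the identity. If `M_n` are the matrices for planes converging to the one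
of `u`, `v`, a subsequence converges to an isometry `g` of `Nrm u v`, and `g⁻¹ M_n` converges to
`1`. -/
def S_NID : Prop :=
  ∀ (E : Type) [NormedAddCommGroup E] [NormedSpace ℝ E] (u v : E) (r : ℝ), Ind u v → 0 < r →
    LocType (Nrm u v) u v r → ∀ ε : ℝ, 0 < ε → ∃ δ : ℝ, 0 < δ ∧
      ∀ u' v' : E, ‖u' - u‖ < δ → ‖v' - v‖ < δ →
        ∃ p q r' s : ℝ, |p - 1| < ε ∧ |q| < ε ∧ |r'| < ε ∧ |s - 1| < ε ∧
          Via (Nrm u v) (Nrm u' v') p q r' s

/-- DER: the first coordinate vector does not move to first order: by contradiction with sequences,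
from NID, EXP (for `(l1, l2) = (1, 0)` and `(0, 1)`), GRD and CUB with `k a b = D (a u + b v) e`. -/
def S_DER : Prop :=
  ∀ (E : Type) [NormedAddCommGroup E] [NormedSpace ℝ E] (D : E → StrongDual ℝ E), Sm E → NF D →
    ∀ (u v : E) (r : ℝ), Ind u v → ¬ Quad (Nrm u v) → 0 < r → LocType (Nrm u v) u v r →
      ∀ (e : E) (ε : ℝ), 0 < ε → ∃ δ : ℝ, 0 < δ ∧ ∀ s : ℝ, |s| < δ →
        ∃ p q r' t : ℝ, Via (Nrm u v) (Nrm u (v + s • e)) p q r' t ∧
          |p - 1| ≤ ε * |s| ∧ |r'| ≤ ε * |s|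

/-- PATH: integration along the segment from `y0` to `y'`. Put `e = y' - y0`,
`N_s = Nrm x (y0 + s e)` and `g s = inf {N_0 (1 - p) (- r) | Via N_0 N_s p q r t}`. If
`Via N_(s0) N_s p q r t`, composition with this matrix and its inverse shows
`|g s - g s0| ≤ N_(s0) (p - 1) r`, so `g` has derivative `0` everywhere on an interval containing
`[0, 1]`; `g 0 = 0`, so `g 1 = 0`, and the infimum is attained (compactness). -/
def S_PATH : Prop :=
  ∀ (E : Type) [NormedAddCommGroup E] [NormedSpace ℝ E] (x y0 : E) (r : ℝ), 0 < r →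
    (∀ y1 : E, ‖y1 - y0‖ < r → Ind x y1 ∧ HasType (Nrm x y0) x y1 ∧
      ∀ (e : E) (ε : ℝ), 0 < ε → ∃ δ : ℝ, 0 < δ ∧ ∀ s : ℝ, |s| < δ →
        ∃ p q r' t : ℝ, Via (Nrm x y1) (Nrm x (y1 + s • e)) p q r' t ∧
          |p - 1| ≤ ε * |s| ∧ |r'| ≤ ε * |s|) →
    ∀ y' : E, ‖y' - y0‖ < r → ∃ q t : ℝ, Via (Nrm x y0) (Nrm x y') 1 q 0 t

/-- SGN: if moreover `y0`, `y'` are unit vectors to which `x` is orthogonal, the shapes agree up to
the sign of the second coordinate: `w = q x + t y0` satisfies `‖w‖ = 1` and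
`‖x + s w‖ = ‖x + s y'‖ ≥ 1`, so `D x w = 0` (ORT), `q = 0`, `|t| = 1`. -/
def S_SGN : Prop :=
  ∀ (E : Type) [NormedAddCommGroup E] [NormedSpace ℝ E] (D : E → StrongDual ℝ E), Sm E → NF D →
    ∀ (x y0 y' : E) (q t : ℝ), ‖x‖ = 1 → ‖y0‖ = 1 → ‖y'‖ = 1 → D x y0 = 0 → D x y' = 0 →
      Via (Nrm x y0) (Nrm x y') 1 q 0 t →
      HasShape (Nrm x y0) x y' ∨ HasShape (fun a b => Nrm x y0 a (-b)) x y'

/-- QEU: orthogonal unit pairs of Euclidean type are orthonormal. -/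
def S_QEU : Prop :=
  ∀ (E : Type) [NormedAddCommGroup E] [NormedSpace ℝ E] (D : E → StrongDual ℝ E), NF D →
    ∀ (N : ℝ → ℝ → ℝ) (x y : E), Quad N → ‖x‖ = 1 → ‖y‖ = 1 → D x y = 0 → HasType N x y →
      ∀ a b : ℝ, ‖a • x + b • y‖ ^ 2 = a ^ 2 + b ^ 2

/-- QIN: Euclidean type is invariant, types compose, and are symmetric for independent vectors. -/
def S_QIN : Prop :=
  ∀ (E : Type) [NormedAddCommGroup E] [NormedSpace ℝ E] (N : ℝ → ℝ → ℝ), IsNorm2 N →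
    ∀ x y : E, Ind x y → HasType N x y →
      (Quad (Nrm x y) → Quad N) ∧ ∀ u v : E, HasType N u v → HasType (Nrm x y) u v

/-- TWB: Baire: if near `y0` in `Orth x` one of two shapes always occurs, one of the two sets is
nonmeagre. -/
def S_TWB : Prop :=
  ∀ (E : Type) [NormedAddCommGroup E] [NormedSpace ℝ E] [CompleteSpace E] (N1 N2 : ℝ → ℝ → ℝ)
    (x y0 : E) (r : ℝ), y0 ∈ Orth x → 0 < r →
    (∀ y ∈ Orth x, ‖y - y0‖ < r → HasShape N1 x y ∨ HasShape N2 x y) →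
    ¬ IsMeagre {y : Orth x | HasShape N1 x (y : E)} ∨ ¬ IsMeagre {y : Orth x | HasShape N2 x (y : E)}

/-- CNT: Baire: if countably many types suffice for the planes through `x`, one of them is
nonmeagre (`Orth x` is a complete metric space, nonempty because the dimension is at least 2). -/
def S_CNT : Prop :=
  ∀ (E : Type) [NormedAddCommGroup E] [NormedSpace ℝ E] [CompleteSpace E], 1 < Module.rank ℝ E →
    ∀ (x : E) (N : ℕ → ℝ → ℝ → ℝ), ‖x‖ = 1 → (∀ y ∈ Orth x, ∃ i, HasType (N i) x y) →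
      ∃ i, ¬ IsMeagre {y : Orth x | HasType (N i) x (y : E)}

end Pool.Agent.Lead.BR
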