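import Pool.Agent.Lead.BR.Asm2
import Pool.Agent.Lead.BR.T.TLIM
import Pool.Agent.Lead.BR.T.TMEA
import Pool.Agent.Lead.BR.T.TLOC
import Pool.Agent.Lead.BR.T.TEXT
import Pool.Agent.Lead.BR.T.GRD
import Pool.Agent.Lead.BR.T.RIG
import Pool.Agent.Lead.BR.T.CUB
import Pool.Agent.Lead.BR.T.EXP
import Pool.Agent.Lead.BR.T.NID
import Pool.Agent.Lead.BR.T.DER
import Pool.Agent.Lead.BR.T.PATH
import Pool.Agent.Lead.BR.T.SGN
import Pool.Agent.Lead.BR.T.QEU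
import Pool.Agent.Lead.BR.T.QIN
import Pool.Agent.Lead.BR.T.TWB
import Pool.Agent.Lead.BR.T.CNT
import Pool.Agent.Lead.BR.T.EME
import Pool.Agent.Lead.BR.T.EHI
import Pool.Agent.Lead.BR.T.ESL

/-!
# Final assembly of the project BR
-/

set_option autoImplicit false
set_option linter.unusedVariables false

namespace Pool.Agent.Lead.BR

open TopologicalSpace Metric Filter Topology

theorem st_DER : S_DER :=
  T.DER.main T.NID.main (T.EXP.main (T.GRD.main T.CON.main) T.RIG.main) (T.GRD.main T.CON.main)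
    (T.CUB.main T.RIG.main)

theorem st_core (E : Type) [NormedAddCommGroup E] [NormedSpace ℝ E] [CompleteSpace E]
    [SeparableSpace E] (D : E → StrongDual ℝ E) (hTr : Tr E) (hSm : Sm E) (hD : NF D)
    (N : ℝ → ℝ → ℝ) (hN : IsNorm2 N) (x y : E) (r : ℝ) (hx : ‖x‖ = 1) (hy : ‖y‖ = 1)
    (hxy : D x y = 0) (hr : 0 < r) (hloc : LocType N x y r) : Hilb E :=
  core_type st_DER T.PATH.main (T.SGN.main T.ORT.main) T.QEU.main T.QIN.main T.TWB.main E D hTr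
    hSm hD N hN x y r hx hy hxy hr hloc

/-- one type nonmeagre among all pairs -/
theorem all_pairs (E : Type) [NormedAddCommGroup E] [NormedSpace ℝ E] [CompleteSpace E]
    [SeparableSpace E] (hd : 1 < Module.rank ℝ E) (hTr : Tr E) (N : ℝ → ℝ → ℝ) (hN : IsNorm2 N)
    (hM : ¬ IsMeagre {p : E × E | Ind p.1 p.2 ∧ HasType N p.1 p.2}) : Hilb E := by
  obtain ⟨D, hD⟩ := exists_NF E
  have hSm := T.SM.main E hTr
  obtain ⟨x1, y1, r, hr, h⟩ := (T.EME.main E N hN).1 hM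
  obtain ⟨x, y, r', hx, hy, hxy, hr', hl⟩ := T.OPE.main E D hSm hD hd N x1 y1 r hr h
  exact st_core E D hTr hSm hD N hN x y r' hx hy hxy hr' hl

/-- one type nonmeagre among the planes through one point -/
theorem all_through (E : Type) [NormedAddCommGroup E] [NormedSpace ℝ E] [CompleteSpace E]
    [SeparableSpace E] (hd : 1 < Module.rank ℝ E) (hTr : Tr E) (N : ℝ → ℝ → ℝ) (hN : IsNorm2 N)
    (x : E) (hx : x ≠ 0) (hM : ¬ IsMeagre {y : E | Ind x y ∧ HasType N x y}) : Hilb E := by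
  obtain ⟨D, hD⟩ := exists_NF E
  have hSm := T.SM.main E hTr
  obtain ⟨y1, r, hr, h⟩ := (T.EME.main E N hN).2 x hM
  obtain ⟨y0, r0, hy0, hxy, hr0, h0⟩ := T.ESL.main E D hSm hD hd N x y1 r hx hr h
  have hxn : ‖‖x‖⁻¹ • x‖ = 1 := by
    rw [norm_smul, norm_inv, norm_norm, inv_mul_cancel₀ (norm_ne_zero_iff.2 hx)]
  obtain ⟨r1, hr1, h1⟩ := T.TLOC.main T.CON.main T.EQV.main T.TLIM.main E D hTr hSm hD N
    (‖x‖⁻¹ • x) y0 r0 hN hxn hy0 hxy hr0 h0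
  obtain ⟨r2, hr2, h2⟩ := T.TEXT.main T.CON.main E D hSm hD N (‖x‖⁻¹ • x) y0 r1 hxn hy0 hxy hr1 h1
  exact st_core E D hTr hSm hD N hN (‖x‖⁻¹ • x) y0 r2 hxn hy0 hxy hr2 h2

/-- the main theorem -/
theorem main3 (E : Type) [NormedAddCommGroup E] [NormedSpace ℝ E] [CompleteSpace E]
    [SeparableSpace E] (hd : 1 < Module.rank ℝ E) (hTr : Tr E) :
    List.TFAE [
      Hilb E,
      ∃ (x : E) (N : ℝ → ℝ → ℝ), x ≠ 0 ∧ IsNorm2 N ∧
        ¬ IsMeagre {y : E | Ind x y ∧ HasType N x y},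
      ∃ N : ℝ → ℝ → ℝ, IsNorm2 N ∧ ¬ IsMeagre {p : E × E | Ind p.1 p.2 ∧ HasType N p.1 p.2},
      ∃ (x : E) (N : ℕ → ℝ → ℝ → ℝ), x ≠ 0 ∧ (∀ i, IsNorm2 (N i)) ∧
        ∀ y : E, Ind x y → ∃ i, HasType (N i) x y,
      ∃ x : E, ‖x‖ = 1 ∧ ∃ y ∈ Orth x,
        ¬ IsMeagre {z : Orth x | ∃ T : E ≃ₗᵢ[ℝ] E, T x = x ∧ T y = z},
      ∃ p ∈ Pairs E,
        ¬ IsMeagre {q : Pairs E | ∃ T : E ≃ₗᵢ[ℝ] E, T p.1 = q.1.1 ∧ T p.2 = q.1.2}] := by
  have h0 := main2 (T.TMEA.main T.TLIM.main) (T.TLOC.main T.CON.main T.EQV.main T.TLIM.main)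
    (T.TEXT.main T.CON.main) st_DER T.PATH.main
    (T.SGN.main T.ORT.main) T.QEU.main T.QIN.main T.TWB.main T.CNT.main E hd hTr
  tfae_have 1 ↔ 5 := h0.out 0 4
  tfae_have 1 ↔ 6 := h0.out 0 5
  tfae_have 1 → 4 := by
    intro h
    obtain ⟨⟨N, hN, hT⟩, ⟨x, hx⟩, -, -⟩ := T.EHI.main E hd h
    refine ⟨x, fun _ => N, hx, fun _ => hN, ?_⟩
    intro y hy
    exact ⟨0, hT x y hy⟩
  tfae_have 4 → 2 := by
    rintro ⟨x, N, hx, hN, h⟩
    obtain ⟨i, hi⟩ := T.ECN.main E hd x N hx h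
    exact ⟨x, N i, hx, hN i, hi⟩
  tfae_have 2 → 1 := by
    rintro ⟨x, N, hx, hN, hM⟩
    exact all_through E hd hTr N hN x hx hM
  tfae_have 1 → 3 := by
    intro h
    obtain ⟨⟨N, hN, hT⟩, -, -, hP⟩ := T.EHI.main E hd h
    refine ⟨N, hN, ?_⟩
    intro hm
    apply hP
    refine hm.mono ?_
    intro p hp
    exact ⟨hp, hT _ _ hp⟩
  tfae_have 3 → 1 := by
    rintro ⟨N, hN, hM⟩
    exact all_pairs E hd hTr N hN hM
  tfae_finish

end Pool.Agent.Lead.BR
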