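import Pool.Agent.Lead.BR.Defs

/-!
# Statements of the project BR
-/

set_option autoImplicit false

namespace Pool.Agent.Lead.BR

open TopologicalSpace Metric Filter Topology

/-- SM: a separable transitive norm is smooth. Mazur: `‖x + δ w‖ + ‖x - δ w‖ - 2 ‖x‖ < δ / m` for
some `δ > 0` is an open dense condition on `x` for each `w` (a convex function of one variable is
differentiable off a countable set), so by Baire some nonzero `x` satisfies it for all `w` in a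
countable dense set and all `m`; then the norming functional of `x` is unique, and transitivity
and homogeneity carry this to all points. -/
def S_SM : Prop :=
  ∀ (E : Type) [NormedAddCommGroup E] [NormedSpace ℝ E] [CompleteSpace E] [SeparableSpace E],
    Tr E → Sm E

/-- ORT: `Bo x y` iff the norming functional of `x` vanishes at `y` (Hahn-Banach: if `Bo x y`, the
distance of `x` from the line `ℝ y` is `‖x‖`, so some functional of norm at most 1 vanishes at `y`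
and norms `x`). -/
def S_ORT : Prop :=
  ∀ (E : Type) [NormedAddCommGroup E] [NormedSpace ℝ E] (D : E → StrongDual ℝ E), Sm E → NF D →
    ∀ x y : E, x ≠ 0 → (Bo x y ↔ D x y = 0)

/-- CON: the norming functional depends continuously on the point, from the norm to the weak star
topology (Banach-Alaoglu and uniqueness; or Gateaux differentiability). -/
def S_CON : Prop :=
  ∀ (E : Type) [NormedAddCommGroup E] [NormedSpace ℝ E] (D : E → StrongDual ℝ E), Sm E → NF D →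
    ∀ x y : E, x ≠ 0 → ∀ ε : ℝ, 0 < ε → ∃ δ : ℝ, 0 < δ ∧ ∀ x' : E, ‖x' - x‖ < δ →
      |D x' y - D x y| < ε

/-- EQV: equivariance and homogeneity of the norming functional. -/
def S_EQV : Prop :=
  ∀ (E : Type) [NormedAddCommGroup E] [NormedSpace ℝ E] (D : E → StrongDual ℝ E), Sm E → NF D →
    (∀ (T : E ≃ₗᵢ[ℝ] E) (x y : E), x ≠ 0 → D (T x) (T y) = D x y) ∧
    (∀ (c : ℝ) (x : E), 0 < c → x ≠ 0 → D (c • x) = D x)

/-- LOC: a slice with constant shape gives a neighbourhood of pairs with the same shape. By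
`near_open` (file `Near.lean` of this folder) every unit `x'` near `x` is a limit of points `T x`,
`T` an isometry with `‖T y0 - y0‖` small. For a pair `(x', y')` near `(x, y0)` put
`w = T⁻¹ y' - D x (T⁻¹ y') x`; here `D x (T⁻¹ y') = D (T x) y'` tends to `D x' y' = 0` (CON, EQV),
so `w / ‖w‖` is in the slice, near `y0`, and `‖a x' + b y'‖ = lim ‖a x + b w / ‖w‖ ‖ = N a b`. -/
def S_LOC : Prop :=
  ∀ (E : Type) [NormedAddCommGroup E] [NormedSpace ℝ E] [CompleteSpace E] [SeparableSpace E]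
    (D : E → StrongDual ℝ E), Tr E → Sm E → NF D →
    ∀ (N : ℝ → ℝ → ℝ) (x y0 : E) (r : ℝ), ‖x‖ = 1 → ‖y0‖ = 1 → D x y0 = 0 → 0 < r →
      (∀ y : E, ‖y‖ = 1 → D x y = 0 → ‖y - y0‖ < r → HasShape N x y) →
      ∃ r' : ℝ, 0 < r' ∧ LocShape D N x y0 r'

/-- NOR: the shape of an orthogonal unit pair is a norm on the plane. -/
def S_NOR : Prop :=
  ∀ (E : Type) [NormedAddCommGroup E] [NormedSpace ℝ E] (D : E → StrongDual ℝ E), NF D →
    ∀ (N : ℝ → ℝ → ℝ) (x y : E), ‖x‖ = 1 → ‖y‖ = 1 → D x y = 0 → HasShape N x y →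
      IsNorm2 N ∧ N 1 0 = 1 ∧ N 0 1 = 1 ∧ ∀ t : ℝ, 1 ≤ N 1 t

/-- PLN: inside the plane of `(x, y0)`: for unit `x' = a x + b y0` near `x` put
`w = y0 - D x' y0 x'` and `y' = w / ‖w‖ = q x + s y0`; the pair `(x', y')` is orthogonal and near
`(x, y0)` (CON), so it has shape `N`, which is `Reach N a b`. -/
def S_PLN : Prop :=
  ∀ (E : Type) [NormedAddCommGroup E] [NormedSpace ℝ E] (D : E → StrongDual ℝ E), Sm E → NF D →
    ∀ (N : ℝ → ℝ → ℝ) (x y0 : E) (r : ℝ), ‖x‖ = 1 → ‖y0‖ = 1 → D x y0 = 0 → 0 < r →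
      LocShape D N x y0 r →
      ∃ δ : ℝ, 0 < δ ∧ ∀ a b : ℝ, N a b = 1 → |a - 1| < δ → |b| < δ → Reach N a b

/-- PLT: local transitivity of a norm of the plane implies transitivity. The matrices of isometries
form a compact group; the set of reached points of the unit circle is closed (compactness) and open
(homogeneity), and the unit circle is the continuous image of `ℝ` under
`θ ↦ (cos θ, sin θ) / N (cos θ) (sin θ)`. -/
def S_PLT : Prop :=
  ∀ N : ℝ → ℝ → ℝ, IsNorm2 N → N 1 0 = 1 →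
    (∃ δ : ℝ, 0 < δ ∧ ∀ a b : ℝ, N a b = 1 → |a - 1| < δ → |b| < δ → Reach N a b) →
    ∀ a b : ℝ, N a b = 1 → Reach N a b

/-- PLE: a transitive norm of the plane is Euclidean. Let `K` be the set of quadratic forms
`A u ^ 2 + 2 B u v + C v ^ 2` between `0` and `N u v ^ 2` (compact, convex, some of them positive
definite) and choose one with `A C - B ^ 2` maximal; it is unique (strict concavity of the
logarithm of the determinant), and the isometries have determinant `± 1`, so it is invariant; by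
transitivity it is a constant multiple of `N ^ 2`. -/
def S_PLE : Prop :=
  ∀ N : ℝ → ℝ → ℝ, IsNorm2 N → N 1 0 = 1 → (∀ a b : ℝ, N a b = 1 → Reach N a b) →
    ∃ A B C : ℝ, ∀ u v : ℝ, N u v ^ 2 = A * u ^ 2 + 2 * B * u * v + C * v ^ 2

/-- SYM: symmetry. For `(z, u)` near `(y, x)` with `D z u = 0` put `w = z - D u z u`, a vector with
`D u w = 0`, `w / ‖w‖` near `y`; the plane of `u`, `z` is Euclidean by the hypothesis for
`(u, w / ‖w‖)`; as `‖z + t u‖ ≥ 1` for all `t`, `z = w`. -/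
def S_SYM : Prop :=
  ∀ (E : Type) [NormedAddCommGroup E] [NormedSpace ℝ E] (D : E → StrongDual ℝ E), Sm E → NF D →
    ∀ (x y : E) (r : ℝ), ‖x‖ = 1 → ‖y‖ = 1 → D x y = 0 → 0 < r → Eu D x y r →
      D y x = 0 ∧ ∃ r' : ℝ, 0 < r' ∧ Eu D y x r'

/-- TWO: the two structures compared. For `v` in both kernels and `‖v‖` small, the pairs
`(y, (x + v) / ‖x + v‖)` and, for `|a| ≥ 1`, `(x, (y + v / a) / ‖y + v / a‖)` are Euclidean:
`‖x + v + a y‖ ^ 2 = a ^ 2 + ‖x + v‖ ^ 2` for all `a` and `= 1 + a ^ 2 ‖y + v / a‖ ^ 2` for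
`|a| ≥ 1`. With `G v = ‖x + v‖ ^ 2 - 1`, `K v = ‖y + v‖ ^ 2 - 1`: `G v = a ^ 2 K (v / a)`, so
`G = K` (`a = 1`) and `G (t v) = t ^ 2 G v` for `|t| ≤ 1`. -/
def S_TWO : Prop :=
  ∀ (E : Type) [NormedAddCommGroup E] [NormedSpace ℝ E] (D : E → StrongDual ℝ E), NF D →
    ∀ (x y : E) (r : ℝ), ‖x‖ = 1 → ‖y‖ = 1 → D x y = 0 → D y x = 0 → 0 < r → Eu D x y r →
      Eu D y x r →
      ∃ τ : ℝ, 0 < τ ∧ ∀ v : E, D x v = 0 → D y v = 0 → ‖v‖ ≤ τ →
        (∀ t : ℝ, |t| ≤ 1 → ‖x + t • v‖ ^ 2 - 1 = t ^ 2 * (‖x + v‖ ^ 2 - 1)) ∧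
        ∀ a : ℝ, ‖x + v + a • y‖ ^ 2 = a ^ 2 + ‖x + v‖ ^ 2

/-- NIN: the same for all `w` in the kernel of `D x`: write `w = c y + v`, `c = D y w`. -/
def S_NIN : Prop :=
  ∀ (E : Type) [NormedAddCommGroup E] [NormedSpace ℝ E] (D : E → StrongDual ℝ E), NF D →
    ∀ (x y : E) (τ : ℝ), ‖x‖ = 1 → ‖y‖ = 1 → D x y = 0 → 0 < τ →
      (∀ v : E, D x v = 0 → D y v = 0 → ‖v‖ ≤ τ →
        (∀ t : ℝ, |t| ≤ 1 → ‖x + t • v‖ ^ 2 - 1 = t ^ 2 * (‖x + v‖ ^ 2 - 1)) ∧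
        ∀ a : ℝ, ‖x + v + a • y‖ ^ 2 = a ^ 2 + ‖x + v‖ ^ 2) →
      ∀ w : E, D x w = 0 → ‖w‖ ≤ τ / 2 → ∀ t : ℝ, |t| ≤ 1 →
        ‖x + t • w‖ ^ 2 - 1 = t ^ 2 * (‖x + w‖ ^ 2 - 1)

/-- QUA: transport to all points by transitivity, and then `t ↦ ‖z + t u‖ ^ 2` is a quadratic
polynomial near `0`, for all `z ≠ 0` and `u`: with `z = l x`, `u = α x + w`, `D x w = 0`,
`‖z + t u‖ ^ 2 = (l + t α) ^ 2 ‖x + (t / (l + t α)) w‖ ^ 2`, and for `ε > 0` with `‖ε w‖ ≤ τ` and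
small `t` this is `(l + t α) ^ 2 + (t / ε) ^ 2 (‖x + ε w‖ ^ 2 - 1)`. -/
def S_QUA : Prop :=
  ∀ (E : Type) [NormedAddCommGroup E] [NormedSpace ℝ E] (D : E → StrongDual ℝ E),
    Tr E → Sm E → NF D → ∀ (x0 : E) (τ : ℝ), ‖x0‖ = 1 → 0 < τ →
      (∀ w : E, D x0 w = 0 → ‖w‖ ≤ τ → ∀ t : ℝ, |t| ≤ 1 →
        ‖x0 + t • w‖ ^ 2 - 1 = t ^ 2 * (‖x0 + w‖ ^ 2 - 1)) →
      ∀ z u : E, z ≠ 0 → ∃ ρ b c : ℝ, 0 < ρ ∧ ∀ t : ℝ, |t| < ρ →
        ‖z + t • u‖ ^ 2 = ‖z‖ ^ 2 + b * t + c * t ^ 2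

/-- GLO: a function which is a quadratic polynomial near every point is one globally. -/
def S_GLO : Prop :=
  ∀ g : ℝ → ℝ, (∀ s : ℝ, ∃ ρ b c : ℝ, 0 < ρ ∧ ∀ t : ℝ, |t| < ρ → g (s + t) = g s + b * t + c * t ^ 2) →
    ∃ A B C : ℝ, ∀ t : ℝ, g t = A + B * t + C * t ^ 2

/-- PAR: the parallelogram law. On a line not through the origin `‖x + t u‖ ^ 2` is a quadratic
polynomial (GLO), with leading coefficient `‖u‖ ^ 2` (let `t` tend to infinity). -/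
def S_PAR : Prop :=
  ∀ (E : Type) [NormedAddCommGroup E] [NormedSpace ℝ E],
    (∀ z u : E, z ≠ 0 → ∃ ρ b c : ℝ, 0 < ρ ∧ ∀ t : ℝ, |t| < ρ →
        ‖z + t • u‖ ^ 2 = ‖z‖ ^ 2 + b * t + c * t ^ 2) →
    ∀ x y : E, ‖x + y‖ * ‖x + y‖ + ‖x - y‖ * ‖x - y‖ = 2 * (‖x‖ * ‖x‖ + ‖y‖ * ‖y‖)

/-- CV1: in a Hilbert space two orthonormal pairs differ by an isometry (two reflections). -/
def S_CV1 : Prop :=
  ∀ (H : Type) [NormedAddCommGroup H] [InnerProductSpace ℝ H] [CompleteSpace H] (x y x' y' : H),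
    ‖x‖ = 1 → ‖y‖ = 1 → Bo x y → ‖x'‖ = 1 → ‖y'‖ = 1 → Bo x' y' →
      ∃ T : H ≃ₗᵢ[ℝ] H, T x = x' ∧ T y = y'

/-- CV2: the converse direction: in a Hilbert space of dimension at least two the orbits are
everything, and `Orth x` and `Pairs E` are nonempty complete metric spaces, hence not meagre in
themselves. -/
def S_CV2 : Prop :=
  ∀ (E : Type) [NormedAddCommGroup E] [NormedSpace ℝ E] [CompleteSpace E], 1 < Module.rank ℝ E →
    Hilb E →
    (∃ x : E, ‖x‖ = 1 ∧ ∃ y ∈ Orth x,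
      ¬ IsMeagre {z : Orth x | ∃ T : E ≃ₗᵢ[ℝ] E, T x = x ∧ T y = z}) ∧
    ∃ p ∈ Pairs E, ¬ IsMeagre {q : Pairs E | ∃ T : E ≃ₗᵢ[ℝ] E, T p.1 = q.1.1 ∧ T p.2 = q.1.2}

/-- MEA: a nonmeagre closed set has interior points. -/
def S_MEA : Prop :=
  ∀ (E : Type) [NormedAddCommGroup E] [NormedSpace ℝ E] (N : ℝ → ℝ → ℝ),
    (∀ x : E, ¬ IsMeagre {y : Orth x | HasShape N x y} →
      ∃ (y0 : E) (r : ℝ), y0 ∈ Orth x ∧ 0 < r ∧ ∀ y ∈ Orth x, ‖y - y0‖ < r → HasShape N x y) ∧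
    (¬ IsMeagre {p : Pairs E | HasShape N p.1.1 p.1.2} →
      ∃ (p0 : E × E) (r : ℝ), p0 ∈ Pairs E ∧ 0 < r ∧
        ∀ p ∈ Pairs E, ‖p.1 - p0.1‖ < r → ‖p.2 - p0.2‖ < r → HasShape N p.1 p.2)

end Pool.Agent.Lead.BR
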