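import Pool.Agent.Lead.BR.Asm
import Pool.Agent.Lead.BR.T.CONT
import Pool.Agent.Lead.BR.T.CV1
import Pool.Agent.Lead.BR.T.CV2
import Pool.Agent.Lead.BR.T.EQV
import Pool.Agent.Lead.BR.T.GLO
import Pool.Agent.Lead.BR.T.LOC
import Pool.Agent.Lead.BR.T.MEA
import Pool.Agent.Lead.BR.T.NIN
import Pool.Agent.Lead.BR.T.NOR
import Pool.Agent.Lead.BR.T.ORT
import Pool.Agent.Lead.BR.T.PAR
import Pool.Agent.Lead.BR.T.PLE
import Pool.Agent.Lead.BR.T.PLN
import Pool.Agent.Lead.BR.T.PLT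
import Pool.Agent.Lead.BR.T.QUA
import Pool.Agent.Lead.BR.T.SM
import Pool.Agent.Lead.BR.T.SYM
import Pool.Agent.Lead.BR.T.TWO

/-!
# The first part of the project BR, proved
-/

set_option autoImplicit false
set_option linter.unusedVariables false

namespace Pool.Agent.Lead.BR

open TopologicalSpace Metric Filter Topology

/-- a nonmeagre slice of constant shape -/
theorem slice_main (E : Type) [NormedAddCommGroup E] [NormedSpace ℝ E] [CompleteSpace E]
    [SeparableSpace E] (hTr : Tr E) (N : ℝ → ℝ → ℝ) (x : E) (hx : ‖x‖ = 1)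
    (hM : ¬ IsMeagre {y : Orth x | HasShape N x y}) : Hilb E :=
  slice T.SM.main T.MEA.main (T.LOC.main T.CON.main T.EQV.main) T.ORT.main T.NOR.main
    (T.PLN.main T.CON.main) T.PLT.main T.PLE.main (T.SYM.main T.CON.main) T.TWO.main T.NIN.main
    T.QUA.main T.PAR.main E hTr N x hx hM

/-- an open set of Euclidean planes -/
theorem core_eu (E : Type) [NormedAddCommGroup E] [NormedSpace ℝ E] [CompleteSpace E]
    (D : E → StrongDual ℝ E) (hTr : Tr E) (hSm : Sm E) (hD : NF D)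
    (x y : E) (r : ℝ) (hx : ‖x‖ = 1) (hy : ‖y‖ = 1) (hxy : D x y = 0)
    (hr : 0 < r) (hEu : Eu D x y r) : Hilb E := by
  obtain ⟨hyx, r', hr', hEu'⟩ := T.SYM.main T.CON.main E D hSm hD x y r hx hy hxy hr hEu
  have hEu1 : Eu D x y (min r r') := fun x' y' h1 h2 h3 h4 h5 =>
    hEu x' y' h1 h2 h3 (h4.trans_le (min_le_left _ _)) (h5.trans_le (min_le_left _ _))
  have hEu2 : Eu D y x (min r r') := fun x' y' h1 h2 h3 h4 h5 =>
    hEu' x' y' h1 h2 h3 (h4.trans_le (min_le_right _ _)) (h5.trans_le (min_le_right _ _))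
  obtain ⟨τ, hτ, h2⟩ := T.TWO.main E D hD x y (min r r') hx hy hxy hyx (lt_min hr hr') hEu1 hEu2
  have h3 := T.NIN.main E D hD x y τ hx hy hxy hτ h2
  have h4 := T.QUA.main E D hTr hSm hD x (τ / 2) hx (half_pos hτ) h3
  have key := T.PAR.main E h4
  exact ⟨E, inferInstance, InnerProductSpace.ofNorm ℝ key, inferInstance,
    ⟨LinearIsometryEquiv.refl ℝ E⟩⟩

end Pool.Agent.Lead.BR
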