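import Pool.Agent.Lead.BR.Stubs

/-!
# Assembly of the project BR
-/

set_option autoImplicit false
set_option linter.unusedVariables false

namespace Pool.Agent.Lead.BR

open TopologicalSpace Metric Filter Topology

lemma exists_NF (E : Type) [NormedAddCommGroup E] [NormedSpace ℝ E] :
    ∃ D : E → StrongDual ℝ E, NF D := by
  have h : ∀ x : E, ∃ f : StrongDual ℝ E, x ≠ 0 → ‖f‖ ≤ 1 ∧ f x = ‖x‖ := by
    intro x
    by_cases hx : x = 0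
    · exact ⟨0, fun h => absurd hx h⟩
    · obtain ⟨f, hf1, hf2⟩ := exists_dual_vector ℝ x (norm_ne_zero_iff.2 hx)
      exact ⟨f, fun _ => ⟨hf1.le, by rw [hf2]; simp⟩⟩
  choose D hD using h
  exact ⟨D, hD⟩

/-- from a locally constant shape to the parallelogram law -/
theorem core (hORT : S_ORT) (hNOR : S_NOR) (hPLN : S_PLN) (hPLT : S_PLT) (hPLE : S_PLE)
    (hSYM : S_SYM) (hTWO : S_TWO) (hNIN : S_NIN) (hQUA : S_QUA) (hPAR : S_PAR)
    (E : Type) [NormedAddCommGroup E] [NormedSpace ℝ E] [CompleteSpace E]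
    (D : E → StrongDual ℝ E) (hTr : Tr E) (hSm : Sm E) (hD : NF D)
    (N : ℝ → ℝ → ℝ) (x y : E) (r : ℝ) (hx : ‖x‖ = 1) (hy : ‖y‖ = 1) (hxy : D x y = 0)
    (hr : 0 < r) (hloc : LocShape D N x y r) : Hilb E := by
  have hsh : HasShape N x y := hloc x y hx hy hxy (by simpa using hr) (by simpa using hr)
  obtain ⟨hN, h10, h01, hBo⟩ := hNOR E D hD N x y hx hy hxy hsh
  have hreach := hPLT N hN h10 (hPLN E D hSm hD N x y r hx hy hxy hr hloc)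
  obtain ⟨A, B, C, hABC⟩ := hPLE N hN h10 hreach
  have hA : A = 1 := by
    have := hABC 1 0
    rw [h10] at this
    linarith
  have hC : C = 1 := by
    have := hABC 0 1
    rw [h01] at this
    linarith
  subst hA hC
  have hB : B = 0 := by
    have h1 := hBo (-B)
    have h2 := hABC 1 (-B)
    have h3 : 1 ≤ N 1 (-B) ^ 2 := by nlinarith
    rw [h2] at h3
    nlinarith [sq_nonneg B]
  subst hB
  have hEu : Eu D x y r := by
    intro x' y' h1 h2 h3 h4 h5 a b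
    rw [hloc x' y' h1 h2 h3 h4 h5 a b, hABC]
    ring
  obtain ⟨hyx, r', hr', hEu'⟩ := hSYM E D hSm hD x y r hx hy hxy hr hEu
  have hEu1 : Eu D x y (min r r') := fun x' y' h1 h2 h3 h4 h5 =>
    hEu x' y' h1 h2 h3 (h4.trans_le (min_le_left _ _)) (h5.trans_le (min_le_left _ _))
  have hEu2 : Eu D y x (min r r') := fun x' y' h1 h2 h3 h4 h5 =>
    hEu' x' y' h1 h2 h3 (h4.trans_le (min_le_right _ _)) (h5.trans_le (min_le_right _ _))
  obtain ⟨τ, hτ, h2⟩ := hTWO E D hD x y (min r r') hx hy hxy hyx (lt_min hr hr') hEu1 hEu2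
  have h3 := hNIN E D hD x y τ hx hy hxy hτ h2
  have h4 := hQUA E D hTr hSm hD x (τ / 2) hx (half_pos hτ) h3
  have key := hPAR E h4
  exact ⟨E, inferInstance, InnerProductSpace.ofNorm ℝ key, inferInstance,
    ⟨LinearIsometryEquiv.refl ℝ E⟩⟩

theorem slice (hSM : S_SM) (hMEA : S_MEA) (hLOC : S_LOC) (hORT : S_ORT) (hNOR : S_NOR)
    (hPLN : S_PLN) (hPLT : S_PLT) (hPLE : S_PLE)
    (hSYM : S_SYM) (hTWO : S_TWO) (hNIN : S_NIN) (hQUA : S_QUA) (hPAR : S_PAR)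
    (E : Type) [NormedAddCommGroup E] [NormedSpace ℝ E] [CompleteSpace E] [SeparableSpace E]
    (hTr : Tr E) (N : ℝ → ℝ → ℝ) (x : E) (hx : ‖x‖ = 1)
    (hM : ¬ IsMeagre {y : Orth x | HasShape N x y}) : Hilb E := by
  obtain ⟨D, hD⟩ := exists_NF E
  have hSm := hSM E hTr
  obtain ⟨y0, r, ⟨hy0, hBo⟩, hr, hloc⟩ := (hMEA E N).1 x hM
  have hx0 : x ≠ 0 := by
    intro h
    rw [h, norm_zero] at hx
    exact zero_ne_one hx
  have hxy : D x y0 = 0 := (hORT E D hSm hD x y0 hx0).1 hBo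
  obtain ⟨r', hr', hl⟩ := hLOC E D hTr hSm hD N x y0 r hx hy0 hxy hr
    (fun y h1 h2 h3 => hloc y ⟨h1, (hORT E D hSm hD x y hx0).2 h2⟩ h3)
  exact core hORT hNOR hPLN hPLT hPLE hSYM hTWO hNIN hQUA hPAR E D hTr hSm hD N x y0 r' hx hy0
    hxy hr' hl

theorem pairs (hSM : S_SM) (hMEA : S_MEA) (hORT : S_ORT) (hNOR : S_NOR)
    (hPLN : S_PLN) (hPLT : S_PLT) (hPLE : S_PLE)
    (hSYM : S_SYM) (hTWO : S_TWO) (hNIN : S_NIN) (hQUA : S_QUA) (hPAR : S_PAR)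
    (E : Type) [NormedAddCommGroup E] [NormedSpace ℝ E] [CompleteSpace E] [SeparableSpace E]
    (hTr : Tr E) (N : ℝ → ℝ → ℝ)
    (hM : ¬ IsMeagre {p : Pairs E | HasShape N p.1.1 p.1.2}) : Hilb E := by
  obtain ⟨D, hD⟩ := exists_NF E
  have hSm := hSM E hTr
  obtain ⟨⟨x, y⟩, r, ⟨hx, hy, hBo⟩, hr, hloc⟩ := (hMEA E N).2 hM
  have hne : ∀ z : E, ‖z‖ = 1 → z ≠ 0 := by
    intro z hz h
    rw [h, norm_zero] at hz
    exact zero_ne_one hz
  have hxy : D x y = 0 := (hORT E D hSm hD x y (hne x hx)).1 hBo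
  refine core hORT hNOR hPLN hPLT hPLE hSYM hTWO hNIN hQUA hPAR E D hTr hSm hD N x y r hx hy
    hxy hr ?_
  intro x' y' h1 h2 h3 h4 h5
  exact hloc (x', y') ⟨h1, h2, (hORT E D hSm hD x' y' (hne x' h1)).2 h3⟩ h4 h5

/-- the main theorem -/
theorem main (hSM : S_SM) (hMEA : S_MEA) (hLOC : S_LOC) (hORT : S_ORT) (hNOR : S_NOR)
    (hPLN : S_PLN) (hPLT : S_PLT) (hPLE : S_PLE)
    (hSYM : S_SYM) (hTWO : S_TWO) (hNIN : S_NIN) (hQUA : S_QUA) (hPAR : S_PAR) (hCV2 : S_CV2)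
    (E : Type) [NormedAddCommGroup E] [NormedSpace ℝ E] [CompleteSpace E] [SeparableSpace E]
    (hrank : 1 < Module.rank ℝ E) (hTr : Tr E) :
    List.TFAE [
      Hilb E,
      ∃ (x : E) (N : ℝ → ℝ → ℝ), ‖x‖ = 1 ∧ ¬ IsMeagre {y : Orth x | HasShape N x y},
      ∃ N : ℝ → ℝ → ℝ, ¬ IsMeagre {p : Pairs E | HasShape N p.1.1 p.1.2},
      ∃ x : E, ‖x‖ = 1 ∧ ∃ y ∈ Orth x,
        ¬ IsMeagre {z : Orth x | ∃ T : E ≃ₗᵢ[ℝ] E, T x = x ∧ T y = z},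
      ∃ p ∈ Pairs E, ¬ IsMeagre {q : Pairs E | ∃ T : E ≃ₗᵢ[ℝ] E, T p.1 = q.1.1 ∧ T p.2 = q.1.2}] := by
  tfae_have 1 → 4 := fun h => (hCV2 E hrank h).1
  tfae_have 1 → 5 := fun h => (hCV2 E hrank h).2
  tfae_have 4 → 2 := by
    rintro ⟨x, hx, y, hy, hM⟩
    refine ⟨x, fun a b => ‖a • x + b • y‖, hx, fun h => hM (h.mono ?_)⟩
    rintro z ⟨T, hT1, hT2⟩ a b
    rw [← hT2]
    conv_lhs => rw [← hT1]
    rw [← map_smul, ← map_smul, ← map_add, T.norm_map]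
  tfae_have 5 → 3 := by
    rintro ⟨p, hp, hM⟩
    refine ⟨fun a b => ‖a • p.1 + b • p.2‖, fun h => hM (h.mono ?_)⟩
    rintro q ⟨T, hT1, hT2⟩ a b
    rw [← hT1, ← hT2, ← map_smul, ← map_smul, ← map_add, T.norm_map]
  tfae_have 2 → 1 := by
    rintro ⟨x, N, hx, hM⟩
    exact slice hSM hMEA hLOC hORT hNOR hPLN hPLT hPLE hSYM hTWO hNIN hQUA hPAR E hTr N x hx hM
  tfae_have 3 → 1 := by
    rintro ⟨N, hM⟩
    exact pairs hSM hMEA hORT hNOR hPLN hPLT hPLE hSYM hTWO hNIN hQUA hPAR E hTr N hM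
  tfae_finish

end Pool.Agent.Lead.BR
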