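import Pool.Agent.Lead.BR.All
import Pool.Agent.Lead.BR.Stubs2

/-!
# Assembly of the second part of the project BR
-/

set_option autoImplicit false
set_option linter.unusedVariables false

namespace Pool.Agent.Lead.BR

open TopologicalSpace Metric Filter Topology

lemma ne_of_unit {E : Type} [NormedAddCommGroup E] {z : E} (hz : ‖z‖ = 1) : z ≠ 0 := by
  intro h
  rw [h, norm_zero] at hz
  exact zero_ne_one hz

lemma ind_near {E : Type} [NormedAddCommGroup E] [NormedSpace ℝ E] {D : E → StrongDual ℝ E}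
    (hD : NF D) {x y y1 : E} (hx : ‖x‖ = 1) (hy : ‖y‖ = 1) (hxy : D x y = 0)
    (h : ‖y1 - y‖ < 1 / 2) : Ind x y1 := by
  have hx0 := ne_of_unit hx
  have hDx := hD x hx0
  have hle : ∀ z, |D x z| ≤ ‖z‖ := by
    intro z
    have := (D x).le_opNorm z
    rw [Real.norm_eq_abs] at this
    exact this.trans ((mul_le_mul_of_nonneg_right hDx.1 (norm_nonneg z)).trans_eq (one_mul _))
  intro a b hab
  by_cases hb : b = 0
  · subst hb
    rw [zero_smul, add_zero] at hab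
    exact ⟨(smul_eq_zero.1 hab).resolve_right hx0, rfl⟩
  · exfalso
    have h1 : y1 = (-(a / b)) • x := by
      have h2 : b • y1 = -(a • x) := eq_neg_of_add_eq_zero_right hab
      have h3 : y1 = b⁻¹ • (b • y1) := by rw [smul_smul, inv_mul_cancel₀ hb, one_smul]
      rw [h3, h2, smul_neg, smul_smul, neg_smul]
      congr 2
      field_simp
    have h2 : D x (y1 - y) = -(a / b) := by
      rw [map_sub, hxy, h1, map_smul, hDx.2, hx, smul_eq_mul, mul_one, sub_zero]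
    have h3 := hle (y1 - y)
    rw [h2] at h3
    have h4 : ‖y1‖ = |-(a / b)| := by rw [h1, norm_smul, hx, mul_one, Real.norm_eq_abs]
    have h5 : ‖y‖ ≤ ‖y1‖ + ‖y1 - y‖ := by
      have := norm_sub_norm_le y y1
      rw [norm_sub_rev] at this
      linarith
    rw [hy] at h5
    linarith

/-- an open set of planes of one type -/
theorem core_type (hDER : S_DER) (hPATH : S_PATH) (hSGN : S_SGN) (hQEU : S_QEU) (hQIN : S_QIN)
    (hTWB : S_TWB)
    (E : Type) [NormedAddCommGroup E] [NormedSpace ℝ E] [CompleteSpace E] [SeparableSpace E]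
    (D : E → StrongDual ℝ E) (hTr : Tr E) (hSm : Sm E) (hD : NF D)
    (N : ℝ → ℝ → ℝ) (hN : IsNorm2 N) (x y : E) (r : ℝ) (hx : ‖x‖ = 1) (hy : ‖y‖ = 1)
    (hxy : D x y = 0) (hr : 0 < r) (hloc : LocType N x y r) : Hilb E := by
  by_cases hQ : Quad N
  · refine core_eu E D hTr hSm hD x y r hx hy hxy hr ?_
    intro x' y' h1 h2 h3 h4 h5
    exact hQEU E D hD N x' y' hQ h1 h2 h3 (hloc x' y' h4 h5)
  have hx0 := ne_of_unit hx
  have hpt : ∀ y1 : E, ‖y1 - y‖ < r → HasType N x y1 := fun y1 h =>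
    hloc x y1 (by simpa using hr) h
  have hI0 : Ind x y := ind_near hD hx hy hxy (by simp)
  have key : ∀ y' : E, ‖y' - y‖ < min r (1 / 2) → ∃ q t : ℝ, Via (Nrm x y) (Nrm x y') 1 q 0 t := by
    refine hPATH E x y (min r (1 / 2)) (lt_min hr (by norm_num)) ?_
    intro y1 hy1
    have h1 : ‖y1 - y‖ < r := hy1.trans_le (min_le_left _ _)
    have h2 : Ind x y1 := ind_near hD hx hy hxy (hy1.trans_le (min_le_right _ _))
    have h3 := hpt y1 h1
    obtain ⟨h4, h5⟩ := hQIN E N hN x y1 h2 h3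
    have h6 := (hQIN E N hN x y hI0 (hpt y (by simpa using hr))).2
    refine ⟨h2, h6 x y1 h3, ?_⟩
    intro e ε hε
    refine hDER E D hSm hD x y1 (r - ‖y1 - y‖) h2 (fun h => hQ (h4 h)) (by linarith) ?_ e ε hε
    intro u v hu hv
    refine h5 u v (hloc u v ?_ ?_)
    · have := norm_nonneg (y1 - y)
      linarith
    · have h7 : ‖v - y‖ ≤ ‖v - y1‖ + ‖y1 - y‖ := by
        have := norm_add_le (v - y1) (y1 - y)
        rwa [sub_add_sub_cancel] at this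
      linarith
  have hy' : y ∈ Orth x := ⟨hy, (T.ORT.main E D hSm hD x y hx0).2 hxy⟩
  have h1 := hTWB E (Nrm x y) (fun a b => Nrm x y a (-b)) x y (min r (1 / 2)) hy'
    (lt_min hr (by norm_num)) (by
      intro y' hy'' hd
      obtain ⟨q, t, hv⟩ := key y' hd
      exact hSGN E D hSm hD x y y' q t hx hy hy''.1 hxy
        ((T.ORT.main E D hSm hD x y' hx0).1 hy''.2) hv)
  rcases h1 with h1 | h1
  · exact slice_main E hTr _ x hx h1
  · exact slice_main E hTr _ x hx h1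

/-- a nonmeagre type over a point -/
theorem slice_type (hTMEA : S_TMEA) (hTLOC : S_TLOC) (hTEXT : S_TEXT)
    (hDER : S_DER) (hPATH : S_PATH) (hSGN : S_SGN) (hQEU : S_QEU) (hQIN : S_QIN)
    (hTWB : S_TWB)
    (E : Type) [NormedAddCommGroup E] [NormedSpace ℝ E] [CompleteSpace E] [SeparableSpace E]
    (hTr : Tr E) (N : ℝ → ℝ → ℝ) (hN : IsNorm2 N) (x : E) (hx : ‖x‖ = 1)
    (hM : ¬ IsMeagre {y : Orth x | HasType N x (y : E)}) : Hilb E := by
  obtain ⟨D, hD⟩ := exists_NF E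
  have hSm := T.SM.main E hTr
  have hx0 := ne_of_unit hx
  obtain ⟨y0, r, ⟨hy0, hBo⟩, hr, hloc⟩ := (hTMEA E N hN).1 x hM
  have hxy : D x y0 = 0 := (T.ORT.main E D hSm hD x y0 hx0).1 hBo
  obtain ⟨r1, hr1, h1⟩ := hTLOC E D hTr hSm hD N x y0 r hN hx hy0 hxy hr
    (fun y h1 h2 h3 => hloc y ⟨h1, (T.ORT.main E D hSm hD x y hx0).2 h2⟩ h3)
  obtain ⟨r2, hr2, h2⟩ := hTEXT E D hSm hD N x y0 r1 hx hy0 hxy hr1 h1
  exact core_type hDER hPATH hSGN hQEU hQIN hTWB E D hTr hSm hD N hN x y0 r2 hx hy0 hxy hr2 h2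

/-- a nonmeagre type of pairs -/
theorem pairs_type (hTMEA : S_TMEA) (hTEXT : S_TEXT)
    (hDER : S_DER) (hPATH : S_PATH) (hSGN : S_SGN) (hQEU : S_QEU) (hQIN : S_QIN)
    (hTWB : S_TWB)
    (E : Type) [NormedAddCommGroup E] [NormedSpace ℝ E] [CompleteSpace E] [SeparableSpace E]
    (hTr : Tr E) (N : ℝ → ℝ → ℝ) (hN : IsNorm2 N)
    (hM : ¬ IsMeagre {p : Pairs E | HasType N p.1.1 p.1.2}) : Hilb E := by
  obtain ⟨D, hD⟩ := exists_NF E
  have hSm := T.SM.main E hTr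
  obtain ⟨⟨x, y0⟩, r, ⟨hx, hy0, hBo⟩, hr, hloc⟩ := (hTMEA E N hN).2 hM
  have hxy : D x y0 = 0 := (T.ORT.main E D hSm hD x y0 (ne_of_unit hx)).1 hBo
  obtain ⟨r2, hr2, h2⟩ := hTEXT E D hSm hD N x y0 r hx hy0 hxy hr
    (fun x' y' h1 h2 h3 h4 h5 => hloc (x', y')
      ⟨h1, h2, (T.ORT.main E D hSm hD x' y' (ne_of_unit h1)).2 h3⟩ h4 h5)
  exact core_type hDER hPATH hSGN hQEU hQIN hTWB E D hTr hSm hD N hN x y0 r2 hx hy0 hxy hr2 h2

lemma isNorm2_nrm {E : Type} [NormedAddCommGroup E] [NormedSpace ℝ E] {x y : E} (h : Ind x y) :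
    IsNorm2 (Nrm x y) := by
  refine ⟨fun a b => norm_nonneg _, fun a b hab => h a b (norm_eq_zero.1 hab), ?_, ?_⟩
  · intro c a b
    show ‖(c * a) • x + (c * b) • y‖ = |c| * ‖a • x + b • y‖
    rw [mul_smul, mul_smul, ← smul_add, norm_smul, Real.norm_eq_abs]
  · intro a b c d
    show ‖(a + c) • x + (b + d) • y‖ ≤ ‖a • x + b • y‖ + ‖c • x + d • y‖
    have h1 : (a + c) • x + (b + d) • y = (a • x + b • y) + (c • x + d • y) := by module
    rw [h1]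
    exact norm_add_le _ _

/-- orthogonal unit vectors are independent -/
lemma ind_of_bo {E : Type} [NormedAddCommGroup E] [NormedSpace ℝ E] {x y : E} (hx : ‖x‖ = 1)
    (hy : ‖y‖ = 1) (h : Bo x y) : Ind x y := by
  intro a b hab
  by_cases ha : a = 0
  · subst ha
    rw [zero_smul, zero_add] at hab
    exact ⟨rfl, (smul_eq_zero.1 hab).resolve_right (ne_of_unit hy)⟩
  · exfalso
    have h1 := h (a⁻¹ * b)
    have h2 : x + (a⁻¹ * b) • y = a⁻¹ • (a • x + b • y) := by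
      rw [smul_add, smul_smul, smul_smul, inv_mul_cancel₀ ha, one_smul]
    rw [h2, hab, smul_zero, norm_zero, hx] at h1
    linarith

/-- the main theorem -/
theorem main2 (hTMEA : S_TMEA) (hTLOC : S_TLOC) (hTEXT : S_TEXT)
    (hDER : S_DER) (hPATH : S_PATH) (hSGN : S_SGN) (hQEU : S_QEU) (hQIN : S_QIN)
    (hTWB : S_TWB) (hCNT : S_CNT)
    (E : Type) [NormedAddCommGroup E] [NormedSpace ℝ E] [CompleteSpace E] [SeparableSpace E]
    (hrank : 1 < Module.rank ℝ E) (hTr : Tr E) :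
    List.TFAE [
      Hilb E,
      ∃ (x : E) (N : ℝ → ℝ → ℝ), ‖x‖ = 1 ∧ IsNorm2 N ∧
        ¬ IsMeagre {y : Orth x | HasType N x (y : E)},
      ∃ N : ℝ → ℝ → ℝ, IsNorm2 N ∧ ¬ IsMeagre {p : Pairs E | HasType N p.1.1 p.1.2},
      ∃ (x : E) (N : ℕ → ℝ → ℝ → ℝ), ‖x‖ = 1 ∧ (∀ i, IsNorm2 (N i)) ∧
        ∀ y ∈ Orth x, ∃ i, HasType (N i) x y,
      ∃ x : E, ‖x‖ = 1 ∧ ∃ y ∈ Orth x,
        ¬ IsMeagre {z : Orth x | ∃ T : E ≃ₗᵢ[ℝ] E, T x = x ∧ T y = z},
      ∃ p ∈ Pairs E, ¬ IsMeagre {q : Pairs E | ∃ T : E ≃ₗᵢ[ℝ] E, T p.1 = q.1.1 ∧ T p.2 = q.1.2}] := by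
  have hvia : ∀ (T : E ≃ₗᵢ[ℝ] E) (x y : E), HasType (Nrm x y) (T x) (T y) := by
    intro T x y
    refine ⟨1, 0, 0, 1, fun a b => ?_⟩
    show ‖a • T x + b • T y‖ = ‖(1 * a + 0 * b) • x + (0 * a + 1 * b) • y‖
    rw [← map_smul, ← map_smul, ← map_add, T.norm_map]
    congr 2
    · ring_nf
    · ring_nf
  tfae_have 1 → 5 := fun h => (T.CV2.main E hrank h).1
  tfae_have 1 → 6 := fun h => (T.CV2.main E hrank h).2
  tfae_have 5 → 2 := by
    rintro ⟨x, hx, y, hy, hM⟩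
    refine ⟨x, Nrm x y, hx, isNorm2_nrm (ind_of_bo hx hy.1 hy.2), fun h => hM (h.mono ?_)⟩
    rintro z ⟨T, hT1, hT2⟩
    have := hvia T x y
    rw [hT1, hT2] at this
    exact this
  tfae_have 6 → 3 := by
    rintro ⟨p, hp, hM⟩
    refine ⟨Nrm p.1 p.2, isNorm2_nrm (ind_of_bo hp.1 hp.2.1 hp.2.2), fun h => hM (h.mono ?_)⟩
    rintro q ⟨T, hT1, hT2⟩
    have := hvia T p.1 p.2
    rw [hT1, hT2] at this
    exact this
  tfae_have 2 → 1 := by
    rintro ⟨x, N, hx, hN, hM⟩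
    exact slice_type hTMEA hTLOC hTEXT hDER hPATH hSGN hQEU hQIN hTWB E hTr N hN x hx hM
  tfae_have 3 → 1 := by
    rintro ⟨N, hN, hM⟩
    exact pairs_type hTMEA hTEXT hDER hPATH hSGN hQEU hQIN hTWB E hTr N hN hM
  tfae_have 4 → 2 := by
    rintro ⟨x, N, hx, hN, h⟩
    obtain ⟨i, hi⟩ := hCNT E hrank x N hx h
    exact ⟨x, N i, hx, hN i, hi⟩
  tfae_have 1 → 4 := by
    intro h
    obtain ⟨x, hx, y, hy, hM⟩ := (T.CV2.main E hrank h).1
    obtain ⟨H, _, _, _, ⟨Φ⟩⟩ := h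
    refine ⟨x, fun _ => Nrm x y, hx, fun _ => isNorm2_nrm (ind_of_bo hx hy.1 hy.2), ?_⟩
    intro z hz
    have hb : ∀ u v : E, Bo u v → Bo (Φ u) (Φ v) := by
      intro u v huv t
      rw [← map_smul, ← map_add, Φ.norm_map, Φ.norm_map]
      exact huv t
    obtain ⟨T, hT1, hT2⟩ := T.CV1.main H (Φ x) (Φ y) (Φ x) (Φ z)
      (by rw [Φ.norm_map, hx]) (by rw [Φ.norm_map, hy.1]) (hb x y hy.2)
      (by rw [Φ.norm_map, hx]) (by rw [Φ.norm_map, hz.1]) (hb x z hz.2)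
    refine ⟨0, ?_⟩
    have h1 := hvia ((Φ.trans T).trans Φ.symm) x y
    have h2 : ((Φ.trans T).trans Φ.symm) x = x := by
      show Φ.symm (T (Φ x)) = x
      rw [hT1, Φ.symm_apply_apply]
    have h3 : ((Φ.trans T).trans Φ.symm) y = z := by
      show Φ.symm (T (Φ y)) = z
      rw [hT2, Φ.symm_apply_apply]
    rw [h2, h3] at h1
    exact h1
  tfae_finish

end Pool.Agent.Lead.BR
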