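import Mathlib

/-!
# Banach-Mazur rotation problem: planar types over a point

Definitions for the project BR (`MP_cc72b1_an`).
-/

set_option autoImplicit false

namespace Pool.Agent.Lead.BR

open TopologicalSpace Metric Filter Topology

/-- the surjective linear isometries act transitively on the unit sphere -/
def Tr (E : Type) [NormedAddCommGroup E] [NormedSpace ℝ E] : Prop :=
  ∀ x y : E, ‖x‖ = 1 → ‖y‖ = 1 → ∃ T : E ≃ₗᵢ[ℝ] E, T x = y

/-- linearly isometric to a Hilbert space -/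
def Hilb (E : Type) [NormedAddCommGroup E] [NormedSpace ℝ E] : Prop :=
  ∃ (H : Type) (_ : NormedAddCommGroup H) (_ : InnerProductSpace ℝ H) (_ : CompleteSpace H),
    Nonempty (E ≃ₗᵢ[ℝ] H)

/-- every nonzero vector has only one norming functional -/
def Sm (E : Type) [NormedAddCommGroup E] [NormedSpace ℝ E] : Prop :=
  ∀ (x : E) (f g : StrongDual ℝ E), x ≠ 0 → ‖f‖ ≤ 1 → ‖g‖ ≤ 1 → f x = ‖x‖ → g x = ‖x‖ → f = g

section

variable {E : Type} [NormedAddCommGroup E] [NormedSpace ℝ E]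

/-- `D` chooses a norming functional for every nonzero vector -/
def NF (D : E → StrongDual ℝ E) : Prop := ∀ x : E, x ≠ 0 → ‖D x‖ ≤ 1 ∧ D x x = ‖x‖

/-- Birkhoff orthogonality: `x` is orthogonal to `y` -/
def Bo (x y : E) : Prop := ∀ t : ℝ, ‖x‖ ≤ ‖x + t • y‖

/-- the unit vectors to which `x` is orthogonal -/
def Orth (x : E) : Set E := {y | ‖y‖ = 1 ∧ Bo x y}

/-- the pairs of unit vectors, the first orthogonal to the second -/
def Pairs (E : Type) [NormedAddCommGroup E] [NormedSpace ℝ E] : Set (E × E) :=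
  {p | ‖p.1‖ = 1 ∧ ‖p.2‖ = 1 ∧ Bo p.1 p.2}

/-- the pair `(x, y)` has shape `N`: `N` is the norm of the plane spanned by `x`, `y`, in the
coordinates given by `x`, `y` -/
def HasShape (N : ℝ → ℝ → ℝ) (x y : E) : Prop := ∀ a b : ℝ, ‖a • x + b • y‖ = N a b

/-- all orthogonal unit pairs at distance less than `r` from `(x, y)` have shape `N` -/
def LocShape (D : E → StrongDual ℝ E) (N : ℝ → ℝ → ℝ) (x y : E) (r : ℝ) : Prop :=
  ∀ x' y' : E, ‖x'‖ = 1 → ‖y'‖ = 1 → D x' y' = 0 → ‖x' - x‖ < r → ‖y' - y‖ < r → HasShape N x' y'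

/-- all orthogonal unit pairs at distance less than `r` from `(x, y)` are Euclidean -/
def Eu (D : E → StrongDual ℝ E) (x y : E) (r : ℝ) : Prop :=
  ∀ x' y' : E, ‖x'‖ = 1 → ‖y'‖ = 1 → D x' y' = 0 → ‖x' - x‖ < r → ‖y' - y‖ < r →
    ∀ a b : ℝ, ‖a • x' + b • y'‖ ^ 2 = a ^ 2 + b ^ 2

end

/-- a norm on the plane -/
def IsNorm2 (N : ℝ → ℝ → ℝ) : Prop :=
  (∀ a b, 0 ≤ N a b) ∧ (∀ a b, N a b = 0 → a = 0 ∧ b = 0) ∧
    (∀ c a b, N (c * a) (c * b) = |c| * N a b) ∧ ∀ a b c d, N (a + c) (b + d) ≤ N a b + N c d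

/-- some linear isometry of the plane maps `(1, 0)` to `(a, b)` -/
def Reach (N : ℝ → ℝ → ℝ) (a b : ℝ) : Prop :=
  ∃ q s : ℝ, ∀ u v : ℝ, N (a * u + q * v) (b * u + s * v) = N u v

end Pool.Agent.Lead.BR
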