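import Pool.Agent.Lead.BR.Defs

/-!
# Banach-Mazur rotation problem: isometry types of planes

Definitions for the second part of the project BR (`MP_cc72b1_an`).
-/

set_option autoImplicit false

namespace Pool.Agent.Lead.BR

open TopologicalSpace Metric Filter Topology

/-- `N'` is the norm `N` in other linear coordinates: `N' = N ∘ M`, `M` the matrix with the rows
`(p, q)`, `(r, s)` -/
def Via (N N' : ℝ → ℝ → ℝ) (p q r s : ℝ) : Prop :=
  ∀ a b : ℝ, N' a b = N (p * a + q * b) (r * a + s * b)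

/-- the square of `N` is a quadratic form -/
def Quad (N : ℝ → ℝ → ℝ) : Prop :=
  ∃ A B C : ℝ, ∀ u v : ℝ, N u v ^ 2 = A * u ^ 2 + 2 * B * u * v + C * v ^ 2

/-- `N` is differentiable off the origin, with the continuous gradient `(g1, g2)` -/
def Grad (N g1 g2 : ℝ → ℝ → ℝ) : Prop :=
  ∀ a b : ℝ, (a ≠ 0 ∨ b ≠ 0) →
    HasFDerivAt (fun p : ℝ × ℝ => N p.1 p.2)
      (g1 a b • ContinuousLinearMap.fst ℝ ℝ ℝ + g2 a b • ContinuousLinearMap.snd ℝ ℝ ℝ) (a, b) ∧
    ContinuousAt (fun p : ℝ × ℝ => g1 p.1 p.2) (a, b) ∧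
    ContinuousAt (fun p : ℝ × ℝ => g2 p.1 p.2) (a, b)

variable {E : Type} [NormedAddCommGroup E] [NormedSpace ℝ E]

/-- the norm of the plane of `u`, `v` in the coordinates given by `u`, `v` -/
def Nrm (u v : E) : ℝ → ℝ → ℝ := fun a b => ‖a • u + b • v‖

/-- `u`, `v` are linearly independent -/
def Ind (u v : E) : Prop := ∀ a b : ℝ, a • u + b • v = 0 → a = 0 ∧ b = 0

/-- the plane of `u`, `v` is linearly isometric to the plane with the norm `N` -/
def HasType (N : ℝ → ℝ → ℝ) (u v : E) : Prop := ∃ p q r s : ℝ, Via N (Nrm u v) p q r s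

/-- all planes near the one of `x`, `y` have type `N` -/
def LocType (N : ℝ → ℝ → ℝ) (x y : E) (r : ℝ) : Prop :=
  ∀ u v : E, ‖u - x‖ < r → ‖v - y‖ < r → HasType N u v

end Pool.Agent.Lead.BR
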