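import Pool.Agent.Lead.BR.Defs2

/-!
# Statements of the third part of the project BR: natural form
-/

set_option autoImplicit false

namespace Pool.Agent.Lead.BR

open TopologicalSpace Metric Filter Topology

/-- EME: a nonmeagre set of pairs, or of vectors, with the given type is contained in a closed set
with the given type (TLIM), which has interior points. -/
def S_EME : Prop :=
  ∀ (E : Type) [NormedAddCommGroup E] [NormedSpace ℝ E] (N : ℝ → ℝ → ℝ), IsNorm2 N →
    (¬ IsMeagre {p : E × E | Ind p.1 p.2 ∧ HasType N p.1 p.2} →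
      ∃ (x1 y1 : E) (r : ℝ), 0 < r ∧
        ∀ u v : E, ‖u - x1‖ < r → ‖v - y1‖ < r → HasType N u v) ∧
    ∀ x : E, ¬ IsMeagre {y : E | Ind x y ∧ HasType N x y} →
      ∃ (y1 : E) (r : ℝ), 0 < r ∧ ∀ y : E, ‖y - y1‖ < r → HasType N x y

/-- OPE: an open set of pairs of type `N` gives an orthogonal unit pair near which all pairs have
type `N`: move `(x1, y1)` a little so that it is independent, put `x = x1 / ‖x1‖`,
`w = y1 - D x y1 x`, `y = w / ‖w‖`; for `(u, v)` near `(x, y)` the pair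
`(‖x1‖ u, D x y1 u + ‖w‖ v)` is near `(x1, y1)` and spans the same plane; compose the matrices. -/
def S_OPE : Prop :=
  ∀ (E : Type) [NormedAddCommGroup E] [NormedSpace ℝ E] (D : E → StrongDual ℝ E), Sm E → NF D →
    1 < Module.rank ℝ E → ∀ (N : ℝ → ℝ → ℝ) (x1 y1 : E) (r : ℝ), 0 < r →
      (∀ u v : E, ‖u - x1‖ < r → ‖v - y1‖ < r → HasType N u v) →
      ∃ (x y : E) (r' : ℝ), ‖x‖ = 1 ∧ ‖y‖ = 1 ∧ D x y = 0 ∧ 0 < r' ∧ LocType N x y r'

/-- ESL: the same for a fixed first vector: an open set of vectors `y` such that `(x, y)` has type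
`N` gives an open set of unit vectors `y` in the kernel of `D x'`, `x' = x / ‖x‖`. -/
def S_ESL : Prop :=
  ∀ (E : Type) [NormedAddCommGroup E] [NormedSpace ℝ E] (D : E → StrongDual ℝ E), Sm E → NF D →
    1 < Module.rank ℝ E → ∀ (N : ℝ → ℝ → ℝ) (x y1 : E) (r : ℝ), x ≠ 0 → 0 < r →
      (∀ y : E, ‖y - y1‖ < r → HasType N x y) →
      ∃ (y0 : E) (r' : ℝ), ‖y0‖ = 1 ∧ D (‖x‖⁻¹ • x) y0 = 0 ∧ 0 < r' ∧
        ∀ y : E, ‖y‖ = 1 → D (‖x‖⁻¹ • x) y = 0 → ‖y - y0‖ < r' → HasType N (‖x‖⁻¹ • x) y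

/-- ECN: Baire: countably many types suffice for the planes through `x`; the line `ℝ x` is closed
and nowhere dense because the dimension is at least 2. -/
def S_ECN : Prop :=
  ∀ (E : Type) [NormedAddCommGroup E] [NormedSpace ℝ E] [CompleteSpace E], 1 < Module.rank ℝ E →
    ∀ (x : E) (N : ℕ → ℝ → ℝ → ℝ), x ≠ 0 → (∀ y : E, Ind x y → ∃ i, HasType (N i) x y) →
      ∃ i, ¬ IsMeagre {y : E | Ind x y ∧ HasType (N i) x y}

/-- EHI: in a Hilbert space of dimension at least two all planes are isometric to the Euclidean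
plane; so the sets of all independent pairs, and of all `y` independent of `x`, have the Euclidean
type, and they are not meagre (their complements are closed and nowhere dense). -/
def S_EHI : Prop :=
  ∀ (E : Type) [NormedAddCommGroup E] [NormedSpace ℝ E] [CompleteSpace E], 1 < Module.rank ℝ E →
    Hilb E →
    (∃ N : ℝ → ℝ → ℝ, IsNorm2 N ∧ ∀ x y : E, Ind x y → HasType N x y) ∧
    (∃ x : E, x ≠ 0) ∧ (∀ x : E, x ≠ 0 → ¬ IsMeagre {y : E | Ind x y}) ∧
    ¬ IsMeagre {p : E × E | Ind p.1 p.2}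

end Pool.Agent.Lead.BR
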